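import Mathlib
import Pool.Agent.Run7.h489.PX.MulI

set_option autoImplicit false

/-!
# Vojta's inequality with multiplier ideals on `Y × P¹`

Let `K` be a number field and `S` a finite set of places containing the archimedean ones, with at least
two elements. Let `Y` be a smooth projective toric variety with the torus `G_m^m` and the boundary `Δ`,
let `X = Y × P¹`, and let `𝓘` be any nonzero ideal sheaf on `X`. The canonical divisor of `X` is
`-Δ - 2 (Y × ∞)`, and `∑_(v ∈ S) λ_Δ(u, v) = h_Δ(u) + O(1)` if `u ∈ G_m^m` is a tuple of `S`-units.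
So for the points `(u, t)` with such `u` and `t ∈ P¹(K)`, Vojta's conjecture with the correction term
for the ideal `𝓘 (-Δ)` is the inequality
`∑_(v ∈ S) λ_𝓘((u, t), v) - ∑_(v ∈ S) λ_𝓙((u, t), v) ≤ 2 h(t) + ε (h(u) + h(t)) + O(1)` (*)
with the multiplier ideal `𝓙 = (𝓘 (-Δ))^-`. We prove (*) for `100%` of the tuples `u` of `S`-units and
all `t` with `h(t) ≤ B h(u)` such that `(u, t)` is not in a proper closed subset of `G_m^m × P¹`.

Sections of line bundles `O(D) ⊠ O(N)` on `X` with `D` supported on the boundary are sums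
`F(u, x, y) = ∑_a u^a F_a(x, y)` with forms `F_a` of the degree `N`. We describe `D` by a finite set `A`
of exponents such that the sections `u^a`, `a ∈ A`, generate `O(D)`. If the sections in the finite set
`I` generate `𝓘 ⊗ (O(D) ⊠ O(N))`, then
`λ_𝓘((u, t), v) = min_(F ∈ I) log (max_(a ∈ A) |u^a|_v |t|_v^N / |F(u, t)|_v)`.

The only property of the sections `G` of `𝓙` which we use is `ν(G) + a(ν) ≥ ν(𝓘)` for the following
quasi-monomial valuations `ν`, where `a(ν)` is the log discrepancy with respect to `(X, Δ)`. (Sections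
of `𝓙` satisfy this: they satisfy `ν(G) + a_X(ν) ≥ (1 - δ) ν(𝓘 (-Δ))` for all small `δ > 0`, and
`a(ν) = a_X(ν) - ν(Δ)`.) Let `α = ∑ c_b u^b` be a finite sum with algebraic `c_b` and `b ∈ ℚ^m`, and
`Z = x / y - α` or `Z = y / x - α`. Then `ν(∑ c_(j, b) u^b Z^j) = min (j β - θ · b)` with `β ≥ 0` and
`θ ∈ ℝ^m` such that `θ · b ≤ 0` for all exponents `b` of `α`. In this case `a(ν) = β`.
-/

namespace Pool.Agent.Results.MP_8865d3_nt.MultiplierIdeals

open NumberField IsDedekindDomain Height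

section defs

variable {K : Type} [Field K] {m : ℕ}

/-- The sums `∑_a u^a F_a(x, y)` with `F_a ∈ K[x, y]`. -/
abbrev Section (K : Type) [Field K] (m : ℕ) : Type := (Fin m → ℤ) →₀ MvPolynomial (Fin 2) K

/-- The monomial `u^a`. -/
def monomialAt (u : Fin m → K) (a : Fin m → ℤ) : K := ∏ i, u i ^ a i

/-- The form `F(u, x, y)` in `x, y` for given `u`, where `F = ∑_a u^a F_a`. -/
noncomputable def fibre (F : Section K m) (u : Fin m → K) : MvPolynomial (Fin 2) K :=
  ∑ a ∈ F.support, MvPolynomial.C (monomialAt u a) * F a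

/-- The local height `min_(F ∈ I) log (max_(a ∈ A) |u^a|_v |t|_v^N / |F(u, t)|_v)` of the ideal
generated by the sections `F ∈ I`, where `|t|_v = max (|t_0|_v, |t_1|_v)`. -/
noncomputable def localHeight (A : Finset (Fin m → ℤ)) (N : ℕ) (I : Finset (Section K m))
    (v : AbsoluteValue K ℝ) (u : Fin m → K) (t : Fin 2 → K) : ℝ :=
  ⨅ F : I, ((⨆ a : A, Real.log (v (monomialAt u a))) + N * Real.log (⨆ i, v (t i)) -
    Real.log (v (MvPolynomial.eval t (fibre F.1 u))))

/-- The expansion of `F(u, x, y)` in powers of `Z`, where `(x, y) = (α + Z, 1)` if `l = 0` and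
`(x, y) = (1, α + Z)` if `l = 1`. Its coefficients are finite sums `∑ c_b u^b` with `b ∈ ℚ^m`. -/
noncomputable def expansion (F : Section K m) (l : Fin 2)
    (α : AddMonoidAlgebra (AlgebraicClosure K) (Fin m → ℚ)) :
    Polynomial (AddMonoidAlgebra (AlgebraicClosure K) (Fin m → ℚ)) :=
  ∑ a ∈ F.support, Polynomial.C (AddMonoidAlgebra.single (fun i => (a i : ℚ)) 1) *
    MvPolynomial.eval₂ (Polynomial.C.comp ((algebraMap (AlgebraicClosure K)
      (AddMonoidAlgebra (AlgebraicClosure K) (Fin m → ℚ))).comp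
        (algebraMap K (AlgebraicClosure K))))
      (fun i => if i = l then Polynomial.X + Polynomial.C α else 1) (F a)

/-- `θ · b` -/
def pairing (θ : Fin m → ℝ) (b : Fin m → ℚ) : ℝ := ∑ i, (b i : ℝ) * θ i

/-- `max_(a ∈ A) θ · a` -/
noncomputable def supportFunction (A : Finset (Fin m → ℤ)) (θ : Fin m → ℝ) : ℝ :=
  ⨆ a : A, ∑ i, (a.1 i : ℝ) * θ i

/-- The condition for the sections `G ∈ J` of the multiplier ideal of the ideal generated by `I`: for
all `θ ∈ ℝ^m`, all `α` with `θ · b ≤ 0` for all exponents `b` of `α`, and all `β ≥ 0`, the valuation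
`ν(∑ c_(j, b) u^b Z^j) = min (j β - θ · b)` satisfies `ν(G) + β ≥ min_(F ∈ I) ν(F)`. Here `F` and `G` are
considered as sections of the line bundles given by `A` and `A'`, so the values of the support
functions have to be added. -/
def IsMultiplier (I J : Finset (Section K m)) (A A' : Finset (Fin m → ℤ)) : Prop :=
  ∀ (θ : Fin m → ℝ) (l : Fin 2) (α : AddMonoidAlgebra (AlgebraicClosure K) (Fin m → ℚ)) (β : ℝ),
    0 ≤ β → (∀ b ∈ α.coeff.support, pairing θ b ≤ 0) → ∀ G ∈ J, ∀ (j : ℕ) (b : Fin m → ℚ),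
      b ∈ ((expansion G l α).coeff j).coeff.support → ∃ F ∈ I, ∃ (j' : ℕ) (b' : Fin m → ℚ),
        b' ∈ ((expansion F l α).coeff j').coeff.support ∧
          j' * β - pairing θ b' + supportFunction A θ ≤
            j * β - pairing θ b + supportFunction A' θ + β

/-- `G(u, x, y)` is a nonzero polynomial, homogeneous of degree `e` in `x, y`. Its zeros are a proper
closed subset of `G_m^m × P¹`. -/
def IsForm (G : MvPolynomial (Fin m ⊕ Fin 2) K) (e : ℕ) : Prop :=
  G ≠ 0 ∧ MvPolynomial.IsWeightedHomogeneous (Sum.elim (fun _ => 0) fun _ => 1) G e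

end defs

/-- The sum of a function over the places in `S`: the archimedean places, with their
multiplicities, and the given primes. -/
noncomputable def sumS {K : Type} [Field K] [NumberField K] (S : Finset (HeightOneSpectrum (𝓞 K)))
    (g : AbsoluteValue K ℝ → ℝ) : ℝ :=
  ∑ v : InfinitePlace K, v.mult * g v.1 + ∑ v ∈ S, g (FinitePlace.mk v).1

/-- (Heights are relative to `K`, not divided by the degree.) Let `#S ≥ 2`, let `I` and `J` be finite
sets of nonzero sections which are homogeneous of the degrees `N ≥ 1` and `N'` in `x, y`, such that the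
elements of `J` satisfy the condition for the multiplier ideal of the ideal generated by `I`. Let
`N(T)` be the number of the tuples `u ∈ (O_S^*)^m` with all `h(u_i) ≤ T`. Let `B ≥ 0` and `ε, η > 0`.
Then there are a constant `C` and a proper closed subset `Z = {G = 0}` of `G_m^m × P¹` such that no
element of `I` and `J` vanishes outside of `Z`, and for all large `T`, for all but at most `η N(T)` of
these tuples `u`, all `t ∈ P¹(K)` with `h(t) ≤ B T` and `(u, t)` not in `Z` satisfy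
`∑_(v ∈ S) λ_I((u, t), v) - ∑_(v ∈ S) λ_J((u, t), v) ≤ (2 + ε) h(t) + ε ∑ h(u_i) + C`. -/
theorem result (K : Type) [Field K] [NumberField K] (S : Finset (HeightOneSpectrum (𝓞 K)))
    (hS : 2 ≤ Fintype.card (InfinitePlace K) + S.card) (m N N' : ℕ) (hN : 1 ≤ N)
    (I J : Finset (Section K m)) (hI : ∀ F ∈ I, F ≠ 0 ∧ ∀ a, (F a).IsHomogeneous N)
    (hJ : ∀ F ∈ J, F ≠ 0 ∧ ∀ a, (F a).IsHomogeneous N') (hJne : J.Nonempty)
    (A A' : Finset (Fin m → ℤ)) (hIJ : IsMultiplier I J A A') (B ε η : ℝ) (hε : 0 < ε)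
    (hη : 0 < η) :
    ∃ (G : MvPolynomial (Fin m ⊕ Fin 2) K) (e : ℕ) (C T₀ : ℝ), IsForm G e ∧
      (∀ (u : Fin m → K) (t : Fin 2 → K), (∀ i, u i ≠ 0) →
        MvPolynomial.eval (Sum.elim u t) G ≠ 0 →
          (∀ F ∈ I, MvPolynomial.eval t (fibre F u) ≠ 0) ∧
            ∀ F ∈ J, MvPolynomial.eval t (fibre F u) ≠ 0) ∧
      ∀ T : ℝ, T₀ ≤ T →
        (({u : Fin m → Kˣ | (∀ i, u i ∈ (S : Set (HeightOneSpectrum (𝓞 K))).unit K ∧
            logHeight₁ (u i : K) ≤ T) ∧
          ∃ t : Fin 2 → K, t ≠ 0 ∧ logHeight t ≤ B * T ∧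
            MvPolynomial.eval (Sum.elim (fun i => (u i : K)) t) G ≠ 0 ∧
            (2 + ε) * logHeight t + ε * ∑ i, logHeight₁ (u i : K) + C <
              sumS S (fun v => localHeight A N I v (fun i => (u i : K)) t) -
                sumS S (fun v => localHeight A' N' J v (fun i => (u i : K)) t)}.ncard : ℕ) : ℝ) ≤
          η * (({u : Fin m → Kˣ | ∀ i, u i ∈ (S : Set (HeightOneSpectrum (𝓞 K))).unit K ∧
            logHeight₁ (u i : K) ≤ T}.ncard : ℕ) : ℝ) := by
  have hcard : (Pool.Agent.R404.TC.Sp S).card = Fintype.card (InfinitePlace K) + S.card := by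
    show (Finset.disjSum _ _).card = _
    rw [Finset.card_disjSum, Finset.card_univ]
  have hSp : 2 ≤ (Pool.Agent.R404.TC.Sp S).card := by
    rw [hcard]
    exact hS
  have hsum : ∀ g : AbsoluteValue K ℝ → ℝ, sumS S g =
      ∑ v ∈ Pool.Agent.R404.TC.Sp S, Pool.Agent.W180.OP.wt v * g (Pool.Agent.W180.OP.av v) := by
    intro g
    unfold sumS Pool.Agent.R404.TC.Sp
    rw [Finset.sum_disjSum]
    congr 1
    refine Finset.sum_congr rfl fun v _ => ?_
    show _ = (1 : ℝ) * g (FinitePlace.mk v).1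
    rw [one_mul]
  have hcond : Pool.Agent.Run7.h489.PX.Cnd I J A A' := by
    intro θ l α hα β hβ G hG j b hb
    obtain ⟨F, hF, j', b', hb', h⟩ := hIJ θ l α β hβ hα G hG j b hb
    refine ⟨F, hF, j', b', hb', ?_⟩
    have h1 : j' * β - Pool.Agent.Run7.h489.PX.dr θ b' +
        (⨆ a : A, Pool.Agent.Run7.h489.TM.dt θ a) ≤ j * β - Pool.Agent.Run7.h489.PX.dr θ b +
          (⨆ a : A', Pool.Agent.Run7.h489.TM.dt θ a) + β := h
    linarith
  obtain ⟨G, e, C, T₀, hG, hGe, hnz, h⟩ := Pool.Agent.Run7.h489.PX.mul_most S hSp hN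
    (fun F hF => (hI F hF).2) (fun F hF => (hJ F hF).2) (fun F hF => (hI F hF).1)
    (fun F hF => (hJ F hF).1) hJne hcond hε hη (le_max_right B 0)
  let φ : (Fin m → Kˣ) → Fin m → K := fun u i => (u i : K)
  have hφ : Function.Injective φ := fun u u' h => by
    funext i
    exact Units.ext (congrFun h i)
  have hBx : ∀ T : ℝ, {u : Fin m → Kˣ | ∀ i, u i ∈ (S : Set (HeightOneSpectrum (𝓞 K))).unit K ∧
      logHeight₁ (u i : K) ≤ T}.ncard = (Pool.Agent.Run7.h489.TM.Bx m S T).card := by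
    intro T
    rw [← Set.ncard_image_of_injective _ hφ, ← Set.ncard_coe_finset]
    congr 1
    ext u
    constructor
    · rintro ⟨u', h2, rfl⟩
      exact Finset.mem_coe.2 (Pool.Agent.Run7.h489.TM.mem_Bx.2 fun i =>
        ⟨(Pool.Agent.Run7.h489.LV.isU_iff (u' i)).2 (h2 i).1, (h2 i).2⟩)
    · intro h2
      have h3 := Pool.Agent.Run7.h489.TM.mem_Bx.1 (Finset.mem_coe.1 h2)
      refine ⟨fun i => Units.mk0 (u i) (h3 i).1.1, fun i => ⟨?_, (h3 i).2⟩, rfl⟩
      exact (Pool.Agent.Run7.h489.LV.isU_iff _).1 (h3 i).1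
  refine ⟨G, e, C, max T₀ 0, ⟨hG, hGe⟩, hnz, fun T hT => ?_⟩
  have hT0 : 0 ≤ T := (le_max_right _ _).trans hT
  rw [hBx, Pool.Agent.Run7.h489.TM.card_Bx]
  push_cast
  refine le_trans ?_ (h T ((le_max_left _ _).trans hT))
  rw [Nat.cast_le]
  refine Set.ncard_le_ncard_of_injOn φ ?_ hφ.injOn
    ((Pool.Agent.Run7.h489.TM.Bx m S T).finite_toSet.subset fun u hu => hu.1)
  rintro u ⟨hu, t, ht, hht, hGt, hlt⟩
  refine ⟨Pool.Agent.Run7.h489.TM.mem_Bx.2 fun i =>
    ⟨(Pool.Agent.Run7.h489.LV.isU_iff (u i)).2 (hu i).1, (hu i).2⟩, t, ht, hGt,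
    hht.trans (mul_le_mul_of_nonneg_right (le_max_left _ _) hT0), ?_⟩
  rw [hsum, hsum, ← Finset.sum_sub_distrib] at hlt
  refine lt_of_lt_of_le hlt (le_of_eq ?_)
  refine Finset.sum_congr rfl fun v _ => ?_
  rw [mul_sub]
  rfl

end Pool.Agent.Results.MP_8865d3_nt.MultiplierIdeals
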